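import Pool.Agent.helper38.VA.Spec

/-!
# Row F2 of the project va (MP_a2a22c_al)
-/

set_option autoImplicit false

namespace Pool.Agent.VA

open Matrix Module Pool.Agent.PR Pool.Agent.H48SL

theorem F2_inj {n : ℕ} (γ : SLZ n) (h : stdM ℚ γ = 1) : γ = 1 := by
  apply Subtype.ext
  ext i j
  have h1 := congrFun (congrFun h i) j
  unfold stdM at h1
  rw [Matrix.map_apply, eq_intCast] at h1
  by_cases hij : i = j
  · subst hij
    rw [Matrix.one_apply_eq] at h1
    have h2 : ((γ : Matrix (Fin n) (Fin n) ℤ) i i) = 1 := by exact_mod_cast h1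
    rw [h2]
    simp
  · rw [Matrix.one_apply_ne hij] at h1
    have h2 : ((γ : Matrix (Fin n) (Fin n) ℤ) i j) = 0 := by exact_mod_cast h1
    rw [h2]
    simp [Matrix.one_apply_ne hij]

theorem F2_pow {G : Type} [Group G] {x y z : G} (hxz : x * z = z * x)
    (hxy : x * y = z * (y * x)) (a : ℕ) : x ^ a * y = z ^ a * (y * x ^ a) := by
  induction a with
  | zero => simp
  | succ a ih =>
    have h1 : x ^ a * z = z * x ^ a := (Commute.pow_left (show Commute x z from hxz) a)
    calc x ^ (a + 1) * y = x ^ a * (x * y) := by rw [pow_succ, mul_assoc]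
      _ = x ^ a * z * (y * x) := by rw [hxy, mul_assoc]
      _ = z * (x ^ a * y) * x := by rw [h1]; group
      _ = z ^ (a + 1) * (y * x ^ (a + 1)) := by
          rw [ih, pow_succ' z a, pow_succ x a]
          simp only [mul_assoc]

theorem F2 (hHJ : HJ_stmt) (hF1 : F1_stmt) : F2_stmt := by
  intro n hn3 hn4 H hZ hH
  obtain ⟨x, hx, y, hy, z, hz, hxz, hyz, hxy, hzk⟩ := hH
  have hHeis : Heis (fun _ : Fin 1 => x) (fun _ : Fin 1 => y) z := by
    refine ⟨fun _ => hxz, fun _ => hyz, fun _ _ => rfl, fun _ _ => rfl, ?_, fun _ => hxy⟩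
    intro i j hij
    exact absurd (Subsingleton.elim i j) hij
  obtain ⟨k, hk, hrk⟩ := hHJ n 1 le_rfl (by omega) ℚ (SLZ n) (stdHom n ℚ)
    (fun _ : Fin 1 => x) (fun _ : Fin 1 => y) z hHeis (by
      intro k hk h
      exact hzk k hk (F2_inj _ h))
  refine hF1 n hn3 H hZ (z ^ k) (H.pow_mem hz k) x hx ?_ hrk ?_
  · exact (Commute.pow_right (show Commute x z from hxz) k).symm
  · intro a ha m h
    have h1 : Commute (x ^ a) y := by
      rw [h]
      exact (((show Commute y z from hyz).pow_right k).zpow_right m).symm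
    have h2 := F2_pow hxz hxy a
    have h3 : x ^ a * y = y * x ^ a := h1
    rw [h3] at h2
    have h4 : z ^ a = 1 := by
      have : z ^ a * (y * x ^ a) = 1 * (y * x ^ a) := by rw [one_mul]; exact h2.symm
      exact mul_right_cancel this
    exact hzk a ha h4

end Pool.Agent.VA
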